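import Pool.Agent.Lib.MP_25cd9a_co.Discretize
import Pool.Agent.Lib.MP_25cd9a_co.Lower

set_option autoImplicit false

namespace Pool.Agent.Results.MP_25cd9a_co.MinAdmissible

open Pool.Agent.Lib.MP_25cd9a_co

/-- The least admissible treewidth bound for the product structure of `k`-planar graphs is 3. -/
theorem result : IsLeast {c : ℕ | Admissible c} 3 :=
  ⟨admissible_three, fun _ h => three_le h⟩

end Pool.Agent.Results.MP_25cd9a_co.MinAdmissible
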